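import Pool.Agent.Helper60.RT.Defs2

/-!
# Comparison of two phases `u Ψ(t)` and `T' u √(1 + (y t)²)` with the same second derivative at `0`

The difference is a linear form plus `u χ(t)`, `χ` small of the fourth order: a bounded multiplier (`mul12_exp`).
-/

open MeasureTheory Real Set Filter Topology

set_option autoImplicit false

namespace Pool.Agent.Helper18.GC

open Pool.Agent.Helper22.AE
open Pool.Agent.Helper92.GC (dt tp Tq uu tt)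
open Pool.Agent.Helper92.DT (m12 IsMul12)

theorem ee_add (x y : ℝ) : ee (x + y) = ee x * ee y := by
  unfold ee
  rw [← Complex.exp_add]
  congr 1
  push_cast
  ring

/-- `w z = √(1 + z²)` -/
theorem w_facts (z : ℝ) : 1 ≤ √(1 + z ^ 2) ∧ √(1 + z ^ 2) ^ 2 = 1 + z ^ 2 ∧ √(1 + z ^ 2) - 1 ≤ z ^ 2 / 2 := by
  have h1 : 0 ≤ 1 + z ^ 2 := by positivity
  have h2 := Real.sq_sqrt h1
  have h4 : 1 ≤ √(1 + z ^ 2) := by
    rw [Real.one_le_sqrt]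
    nlinarith [sq_nonneg z]
  refine ⟨h4, h2, ?_⟩
  have h5 : √(1 + z ^ 2) ≤ 1 + z ^ 2 / 2 := by
    rw [Real.sqrt_le_left (by positivity)]
    nlinarith [sq_nonneg (z ^ 2)]
  linarith

theorem w_deriv (y t : ℝ) : HasDerivAt (fun t : ℝ => √(1 + (y * t) ^ 2)) (y ^ 2 * t / √(1 + (y * t) ^ 2)) t := by
  have h1 : HasDerivAt (fun t : ℝ => 1 + (y * t) ^ 2) (2 * y ^ 2 * t) t := by
    have h2 : HasDerivAt (fun t : ℝ => y * t) y t := by simpa using (hasDerivAt_id t).const_mul y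
    have h3 := (h2.fun_pow 2).const_add 1
    refine h3.congr_deriv ?_
    push_cast
    ring
  refine (h1.sqrt (by positivity)).congr_deriv ?_
  obtain ⟨h3, -, -⟩ := w_facts (y * t)
  field_simp

theorem w_deriv2 (y t : ℝ) : HasDerivAt (fun t : ℝ => y ^ 2 * t / √(1 + (y * t) ^ 2)) (y ^ 2 / √(1 + (y * t) ^ 2) ^ 3) t := by
  obtain ⟨h3, h4, -⟩ := w_facts (y * t)
  have h0 : √(1 + (y * t) ^ 2) ≠ 0 := by linarith
  have h2 : HasDerivAt (fun t : ℝ => y ^ 2 * t) (y ^ 2) t := by simpa using (hasDerivAt_id t).const_mul (y ^ 2)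
  refine (h2.fun_div (w_deriv y t) h0).congr_deriv ?_
  obtain ⟨w, hw⟩ : ∃ w, w = √(1 + (y * t) ^ 2) := ⟨_, rfl⟩
  rw [← hw] at h4 h0 ⊢
  field_simp
  linear_combination y ^ 2 * h4

theorem w3_bd (z : ℝ) : |1 / √(1 + z ^ 2) ^ 3 - 1| ≤ 3 / 2 * z ^ 2 := by
  obtain ⟨h1, h2, h3⟩ := w_facts z
  obtain ⟨w, hw⟩ : ∃ w, w = √(1 + z ^ 2) := ⟨_, rfl⟩
  rw [← hw] at h1 h2 h3 ⊢
  have h4 : 0 < w ^ 3 := by positivity
  have h5 : 1 / w ^ 3 ≤ 1 := by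
    rw [div_le_one h4]
    exact one_le_pow₀ h1
  rw [abs_of_nonpos (by linarith), neg_sub, sub_le_iff_le_add, ← sub_le_iff_le_add']
  rw [le_div_iff₀ h4]
  have h6 : w ^ 3 - 1 = (w - 1) * (w ^ 2 + w + 1) := by ring
  have h7 : w ^ 2 + w + 1 ≤ 3 * w ^ 3 := by nlinarith [mul_nonneg (sub_nonneg.2 h1) (sub_nonneg.2 h1), mul_nonneg (mul_nonneg (sub_nonneg.2 h1) (sub_nonneg.2 h1)) (sub_nonneg.2 h1)]
  have h8 : w ^ 3 - 1 ≤ (w - 1) * (3 * w ^ 3) := by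
    rw [h6]
    exact mul_le_mul_of_nonneg_left h7 (by linarith)
  have h9 : (w - 1) * (3 * w ^ 3) ≤ z ^ 2 / 2 * (3 * w ^ 3) := mul_le_mul_of_nonneg_right h3 (by positivity)
  nlinarith

/-- a function with small second derivative, after subtraction of the linear part -/
theorem lin_rest {f f1 f2 : ℝ → ℝ} {t₂ K : ℝ} (ht : 0 ≤ t₂) (h1 : ∀ t ∈ Icc (-t₂) t₂, HasDerivAt f (f1 t) t) (h2 : ∀ t ∈ Icc (-t₂) t₂, HasDerivAt f1 (f2 t) t)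
    (h3 : ∀ t ∈ Icc (-t₂) t₂, |f2 t| ≤ K) : (∀ t ∈ Icc (-t₂) t₂, |f t - f 0 - f1 0 * t| ≤ K * t₂ ^ 2) ∧
    ∀ t ∈ Icc (-t₂) t₂, ∀ t' ∈ Icc (-t₂) t₂, |(f t - f 0 - f1 0 * t) - (f t' - f 0 - f1 0 * t')| ≤ K * t₂ * |t - t'| := by
  have h0 : (0 : ℝ) ∈ Icc (-t₂) t₂ := ⟨by linarith, ht⟩
  have hK : 0 ≤ K := (abs_nonneg _).trans (h3 0 h0)
  have hc : Convex ℝ (Icc (-t₂) t₂) := convex_Icc _ _
  have ha : ∀ t ∈ Icc (-t₂) t₂, |f1 t - f1 0| ≤ K * t₂ := by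
    intro t htt
    have h4 := hc.norm_image_sub_le_of_norm_hasDerivWithin_le (f := f1) (f' := f2) (C := K) (fun x hx => (h2 x hx).hasDerivWithinAt) (fun x hx => h3 x hx) h0 htt
    rw [norm_eq_abs, norm_eq_abs, sub_zero] at h4
    refine h4.trans (mul_le_mul_of_nonneg_left (abs_le.2 htt) hK)
  have hd : ∀ t ∈ Icc (-t₂) t₂, HasDerivAt (fun t => f t - f 0 - f1 0 * t) (f1 t - f1 0) t := by
    intro t htt
    have h4 : HasDerivAt (fun t : ℝ => f1 0 * t) (f1 0) t := by simpa using (hasDerivAt_id t).const_mul (f1 0)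
    exact ((h1 t htt).sub_const (f 0)).sub h4
  have hb : ∀ t ∈ Icc (-t₂) t₂, ∀ t' ∈ Icc (-t₂) t₂, |(f t - f 0 - f1 0 * t) - (f t' - f 0 - f1 0 * t')| ≤ K * t₂ * |t - t'| := by
    intro t htt t' htt'
    have h4 := hc.norm_image_sub_le_of_norm_hasDerivWithin_le (f := fun t => f t - f 0 - f1 0 * t) (f' := fun t => f1 t - f1 0) (C := K * t₂)
      (fun x hx => (hd x hx).hasDerivWithinAt) (fun x hx => ha x hx) htt' htt
    rwa [norm_eq_abs, norm_eq_abs] at h4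
  refine ⟨fun t htt => ?_, hb⟩
  have h4 := hb t htt 0 h0
  rw [mul_zero, sub_zero, sub_self, sub_zero, sub_zero] at h4
  refine h4.trans ?_
  calc K * t₂ * |t| ≤ K * t₂ * t₂ := mul_le_mul_of_nonneg_left (abs_le.2 htt) (by positivity)
    _ = K * t₂ ^ 2 := by ring

/-- comparison of the phases -/
theorem cmp {I' : Finset (ℤ × ℤ)} {T' y x U t₂ B' A K : ℝ} {Ψ Ψ1 Ψ2 : ℝ → ℝ} (hU : 0 < U) (ht : 0 ≤ t₂)
    (hS : ∀ k ∈ I', 0 < uu x k ∧ uu x k ≤ U ∧ |tt x k| ≤ t₂) (h1 : ∀ t ∈ Icc (-t₂) t₂, HasDerivAt Ψ (Ψ1 t) t) (h2 : ∀ t ∈ Icc (-t₂) t₂, HasDerivAt Ψ1 (Ψ2 t) t)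
    (h3 : ∀ t ∈ Icc (-t₂) t₂, |Ψ2 t - A| ≤ K) (hTy : T' * y ^ 2 = A) (hT' : 0 ≤ T') (hB : 2 * (K + 3 / 2 * (A * y ^ 2) * t₂ ^ 2) * t₂ ^ 2 * U ≤ B') :
    m12 I' (fun k => ee (uu x k * Ψ (tt x k))) ≤ exp (3800 * B') ^ 12 * m12 I' (fun k => ee (T' * (uu x k * √(1 + (y * tt x k) ^ 2)))) := by
  have hA : 0 ≤ A := by
    rw [← hTy]
    positivity
  obtain ⟨K', hK'⟩ : ∃ K', K' = K + 3 / 2 * (A * y ^ 2) * t₂ ^ 2 := ⟨_, rfl⟩
  rw [← hK'] at hB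
  obtain ⟨f, hf⟩ : ∃ f : ℝ → ℝ, f = fun t => Ψ t - T' * √(1 + (y * t) ^ 2) := ⟨_, rfl⟩
  obtain ⟨f1, hf1⟩ : ∃ f1 : ℝ → ℝ, f1 = fun t => Ψ1 t - T' * (y ^ 2 * t / √(1 + (y * t) ^ 2)) := ⟨_, rfl⟩
  obtain ⟨f2, hf2⟩ : ∃ f2 : ℝ → ℝ, f2 = fun t => Ψ2 t - T' * (y ^ 2 / √(1 + (y * t) ^ 2) ^ 3) := ⟨_, rfl⟩
  have hd1 : ∀ t ∈ Icc (-t₂) t₂, HasDerivAt f (f1 t) t := by
    intro t htt
    rw [hf, hf1]
    exact (h1 t htt).sub ((w_deriv y t).const_mul T')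
  have hd2 : ∀ t ∈ Icc (-t₂) t₂, HasDerivAt f1 (f2 t) t := by
    intro t htt
    rw [hf1, hf2]
    exact (h2 t htt).sub ((w_deriv2 y t).const_mul T')
  have hd3 : ∀ t ∈ Icc (-t₂) t₂, |f2 t| ≤ K' := by
    intro t htt
    have e : f2 t = (Ψ2 t - A) - A * (1 / √(1 + (y * t) ^ 2) ^ 3 - 1) := by
      rw [hf2, ← hTy]
      simp only
      ring
    have h4 := w3_bd (y * t)
    have h5 : t ^ 2 ≤ t₂ ^ 2 := sq_le_sq' htt.1 htt.2
    have h6 : |A * (1 / √(1 + (y * t) ^ 2) ^ 3 - 1)| ≤ A * (3 / 2 * (y * t) ^ 2) := by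
      rw [abs_mul, abs_of_nonneg hA]
      exact mul_le_mul_of_nonneg_left h4 hA
    have h7 : A * (3 / 2 * (y * t) ^ 2) ≤ 3 / 2 * (A * y ^ 2) * t₂ ^ 2 := by
      calc A * (3 / 2 * (y * t) ^ 2) = 3 / 2 * (A * y ^ 2) * t ^ 2 := by ring
        _ ≤ 3 / 2 * (A * y ^ 2) * t₂ ^ 2 := mul_le_mul_of_nonneg_left h5 (by positivity)
    rw [e, hK']
    exact (abs_sub _ _).trans (add_le_add (h3 t htt) (h6.trans h7))
  obtain ⟨hb1, hb2⟩ := lin_rest ht hd1 hd2 hd3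
  have hAB : 2 * (K' * t₂ ^ 2) ≤ B' / U := by
    rw [le_div_iff₀ hU]
    calc 2 * (K' * t₂ ^ 2) * U = 2 * K' * t₂ ^ 2 * U := by ring
      _ ≤ B' := hB
  have hK0 : 0 ≤ K' := (abs_nonneg _).trans (hd3 0 ⟨by linarith, ht⟩)
  have hm := Pool.Agent.Helper92.DT.mul12_exp (S := I') (β := x) hU (by linarith : -t₂ ≤ t₂)
    (fun k hk => ⟨(hS k hk).1, (hS k hk).2.1, (abs_le.1 (hS k hk).2.2).1, (abs_le.1 (hS k hk).2.2).2⟩)
    (χ := fun t => f t - f 0 - f1 0 * t) (B := B') (fun t htt => (hb1 t htt).trans (by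
      have : 0 ≤ K' * t₂ ^ 2 := by positivity
      linarith))
    (fun t htt t' htt' => by
      have h4 := mul_le_mul_of_nonneg_right (hb2 t htt t' htt') (by linarith : (0 : ℝ) ≤ t₂ - -t₂)
      refine h4.trans ?_
      calc K' * t₂ * |t - t'| * (t₂ - -t₂) = 2 * (K' * t₂ ^ 2) * |t - t'| := by ring
        _ ≤ B' / U * |t - t'| := mul_le_mul_of_nonneg_right hAB (abs_nonneg _))
  obtain ⟨c, hc⟩ : ∃ c : ℝ × ℝ, c = (-(f 0), -(f 0 * x + f1 0)) := ⟨_, rfl⟩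
  have e1 : m12 I' (fun k => ee (uu x k * Ψ (tt x k))) =
      m12 I' (fun k => ee (uu x k * (f (tt x k) - f 0 - f1 0 * tt x k)) * ee (T' * (uu x k * √(1 + (y * tt x k) ^ 2)))) := by
    rw [← Pool.Agent.Helper92.DT.m12_shift I' _ c]
    refine Pool.Agent.Helper92.DT.m12_congr fun k hk => ?_
    rw [← ee_add, ← ee_add]
    congr 1
    have hu : (k.1 : ℝ) = uu x k - x * k.2 := by
      unfold uu
      ring
    have ht' : uu x k * tt x k = k.2 := by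
      have h4 := (hS k hk).1.ne'
      unfold tt
      field_simp
    have hft : f (tt x k) = Ψ (tt x k) - T' * √(1 + (y * tt x k) ^ 2) := by rw [hf]
    rw [hc, hft]
    unfold dt
    simp only
    rw [hu]
    linear_combination f1 0 * ht'
  rw [e1]
  exact hm.2 _

end Pool.Agent.Helper18.GC
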