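import Mathlib

/-!
# The phase `q` in the coordinates of a Farey vector

`ψ t = (1 - η t) q(τ + D t / (1 - η t))` has the second derivative `D² q''(..) / (1 - η t)³`; with `3 η q''(τ) = -D q'''(τ)` it differs from `D² q''(τ)` by `O(D⁴ t²)`.
-/

open Real Set

set_option autoImplicit false

namespace Pool.Agent.Helper18.GC

theorem psi_facts {q q1 q2 q3 q4 : ℝ → ℝ} {B E τ D η t₂ : ℝ} (hB : 0 ≤ B) (hE : 0 ≤ E) (h0 : ∀ x, |x| ≤ 12 → HasDerivAt q (q1 x) x)
    (h1 : ∀ x, |x| ≤ 12 → HasDerivAt q1 (q2 x) x) (h2 : ∀ x, |x| ≤ 12 → HasDerivAt q2 (q3 x) x) (h3 : ∀ x, |x| ≤ 12 → HasDerivAt q3 (q4 x) x)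
    (b2 : |q2 τ| ≤ B) (b3 : |q3 τ| ≤ B) (b4 : ∀ x, |x| ≤ 12 → |q4 x| ≤ B) (hτ : |τ| ≤ 8) (hD : 0 ≤ D) (hη : 3 * η * q2 τ = -(q3 τ * D)) (hη' : |η| ≤ E * D)
    (ht₂ : |η| * t₂ ≤ 1 / 2) (hDt : D * t₂ ≤ 2) :
    (∀ t ∈ Icc (-t₂) t₂, HasDerivAt (fun t => (1 - η * t) * q (τ + D * t / (1 - η * t)))
      (-η * q (τ + D * t / (1 - η * t)) + D * q1 (τ + D * t / (1 - η * t)) / (1 - η * t)) t) ∧
    (∀ t ∈ Icc (-t₂) t₂, HasDerivAt (fun t => -η * q (τ + D * t / (1 - η * t)) + D * q1 (τ + D * t / (1 - η * t)) / (1 - η * t))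
      (D ^ 2 * q2 (τ + D * t / (1 - η * t)) / (1 - η * t) ^ 3) t) ∧
    ∀ t ∈ Icc (-t₂) t₂, |D ^ 2 * q2 (τ + D * t / (1 - η * t)) / (1 - η * t) ^ 3 - D ^ 2 * q2 τ| ≤ 32 * B * (1 + E) ^ 2 * D ^ 4 * t ^ 2 := by
  have hw : ∀ t ∈ Icc (-t₂) t₂, 1 / 2 ≤ 1 - η * t := by
    intro t ht
    have h4 : |η * t| ≤ 1 / 2 := by
      rw [abs_mul]
      exact (mul_le_mul_of_nonneg_left (abs_le.2 ht) (abs_nonneg η)).trans ht₂
    linarith [(abs_le.1 h4).2]
  have hm : ∀ t ∈ Icc (-t₂) t₂, |D * t / (1 - η * t)| ≤ 2 * D * |t| := by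
    intro t ht
    have h4 := hw t ht
    rw [abs_div, abs_mul, abs_of_nonneg hD, abs_of_pos (by linarith : 0 < 1 - η * t), div_le_iff₀ (by linarith)]
    have h5 : 0 ≤ D * |t| := mul_nonneg hD (abs_nonneg t)
    nlinarith
  have hx : ∀ t ∈ Icc (-t₂) t₂, |τ + D * t / (1 - η * t)| ≤ 12 := by
    intro t ht
    have h4 := hm t ht
    have h5 : D * |t| ≤ D * t₂ := mul_le_mul_of_nonneg_left (abs_le.2 ht) hD
    exact (abs_add_le _ _).trans (by linarith)
  have hg : ∀ t ∈ Icc (-t₂) t₂, HasDerivAt (fun t => τ + D * t / (1 - η * t)) (D / (1 - η * t) ^ 2) t := by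
    intro t ht
    have h4 := hw t ht
    have h5 : HasDerivAt (fun t : ℝ => D * t) D t := by simpa using (hasDerivAt_id t).const_mul D
    have h6 : HasDerivAt (fun t : ℝ => 1 - η * t) (-η) t := by
      have h7 : HasDerivAt (fun t : ℝ => η * t) η t := by simpa using (hasDerivAt_id t).const_mul η
      exact h7.const_sub 1
    have h8 := (h5.fun_div h6 (by linarith : 1 - η * t ≠ 0)).const_add τ
    refine h8.congr_deriv ?_
    have h9 : 1 - η * t ≠ 0 := by linarith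
    field_simp
    ring
  have hwd : ∀ t : ℝ, HasDerivAt (fun t : ℝ => 1 - η * t) (-η) t := by
    intro t
    have h7 : HasDerivAt (fun t : ℝ => η * t) η t := by simpa using (hasDerivAt_id t).const_mul η
    exact h7.const_sub 1
  refine ⟨?_, ?_, ?_⟩
  · intro t ht
    have h4 := hw t ht
    have h9 : 1 - η * t ≠ 0 := by linarith
    have h5 : HasDerivAt (fun t => q (τ + D * t / (1 - η * t))) (q1 (τ + D * t / (1 - η * t)) * (D / (1 - η * t) ^ 2)) t :=
      (h0 _ (hx t ht)).comp t (hg t ht)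
    refine ((hwd t).fun_mul h5).congr_deriv ?_
    field_simp
  · intro t ht
    have h4 := hw t ht
    have h9 : 1 - η * t ≠ 0 := by linarith
    have h5 : HasDerivAt (fun t => q (τ + D * t / (1 - η * t))) (q1 (τ + D * t / (1 - η * t)) * (D / (1 - η * t) ^ 2)) t :=
      (h0 _ (hx t ht)).comp t (hg t ht)
    have h6 : HasDerivAt (fun t => q1 (τ + D * t / (1 - η * t))) (q2 (τ + D * t / (1 - η * t)) * (D / (1 - η * t) ^ 2)) t :=
      (h1 _ (hx t ht)).comp t (hg t ht)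
    have h7 := (h5.const_mul (-η)).fun_add ((h6.const_mul D).fun_div (hwd t) h9)
    refine h7.congr_deriv ?_
    field_simp
    ring
  · intro t ht
    have h4 := hw t ht
    have h9 : 1 - η * t ≠ 0 := by linarith
    obtain ⟨v, hv⟩ : ∃ v, v = 1 / (1 - η * t) := ⟨_, rfl⟩
    have hv1 : v * (1 - η * t) = 1 := by
      rw [hv]
      field_simp
    have hv0 : 0 < v := by
      rw [hv]
      have : 0 < 1 - η * t := by linarith
      positivity
    have hv2 : v ≤ 2 := by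
      nlinarith
    obtain ⟨m, hmm⟩ : ∃ m, m = D * t / (1 - η * t) := ⟨_, rfl⟩
    have hmv : m = D * t * v := by
      rw [hmm, hv]
      field_simp
    have hm2 : |m| ≤ 2 * D * |t| := by
      rw [hmm]
      exact hm t ht
    rw [← hmm]
    have ea : |η * t| ≤ E * D * |t| := by
      rw [abs_mul]
      exact mul_le_mul_of_nonneg_right hη' (abs_nonneg t)
    have hvv : v - 1 = η * t * v := by linear_combination hv1
    have e1 : |v - 1| ≤ 2 * (E * D * |t|) := by
      rw [hvv, abs_mul, abs_of_pos hv0]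
      have h5 : |η * t| * v ≤ E * D * |t| * 2 := mul_le_mul ea hv2 hv0.le (by positivity)
      linarith
    have hEt : 0 ≤ E * D * |t| := by positivity
    -- the cube
    have e3 : |v ^ 3 - 1| ≤ 14 * (E * D * |t|) := by
      have h5 : v ^ 3 - 1 = (v - 1) * (v ^ 2 + v + 1) := by ring
      have h6 : v ^ 2 + v + 1 ≤ 7 := by nlinarith
      rw [h5, abs_mul, abs_of_pos (by positivity : 0 < v ^ 2 + v + 1)]
      have h7 : |v - 1| * (v ^ 2 + v + 1) ≤ 2 * (E * D * |t|) * 7 := mul_le_mul e1 h6 (by positivity) (by positivity)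
      linarith
    have e4 : |v ^ 3 - 1 - 3 * (η * t)| ≤ 22 * (E * D * |t|) ^ 2 := by
      have h5 : v ^ 3 - 1 - 3 * (η * t) = (v - 1) ^ 2 * (v + 2) + 3 * (η * t) * (v - 1) := by
        linear_combination 3 * hvv
      have h6 : |(v - 1) ^ 2 * (v + 2)| ≤ (2 * (E * D * |t|)) ^ 2 * 4 := by
        rw [abs_mul, abs_of_pos (by linarith : 0 < v + 2), abs_pow]
        exact mul_le_mul (pow_le_pow_left₀ (abs_nonneg _) e1 2) (by linarith) (by linarith) (by positivity)
      have h7 : |3 * (η * t) * (v - 1)| ≤ 3 * (E * D * |t|) * (2 * (E * D * |t|)) := by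
        rw [abs_mul, abs_mul, abs_of_pos (by norm_num : (0 : ℝ) < 3)]
        exact mul_le_mul (by linarith) e1 (abs_nonneg _) (by positivity)
      rw [h5]
      refine (abs_add_le _ _).trans ((add_le_add h6 h7).trans (le_of_eq ?_))
      ring
    -- Taylor
    have hxx : ∀ x ∈ Icc (-|m|) |m|, |τ + x| ≤ 12 := by
      intro x hxm
      have h5 : |x| ≤ |m| := abs_le.2 hxm
      have h6 : D * |t| ≤ D * t₂ := mul_le_mul_of_nonneg_left (abs_le.2 ht) hD
      exact (abs_add_le _ _).trans (by linarith)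
    have hc : Convex ℝ (Icc (-|m|) |m|) := convex_Icc _ _
    have hm0 : (0 : ℝ) ∈ Icc (-|m|) |m| := ⟨by linarith [abs_nonneg m], abs_nonneg m⟩
    have hmI : m ∈ Icc (-|m|) |m| := ⟨neg_abs_le m, le_abs_self m⟩
    have t3 : ∀ x ∈ Icc (-|m|) |m|, |q3 (τ + x) - q3 τ| ≤ B * |m| := by
      intro x hxm
      have h5 := hc.norm_image_sub_le_of_norm_hasDerivWithin_le (f := fun x => q3 (τ + x)) (f' := fun x => q4 (τ + x)) (C := B)
        (fun y hy => by
          have h6 : HasDerivAt (fun x : ℝ => τ + x) 1 y := (hasDerivAt_id y).const_add τ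
          have h7 := (h3 _ (hxx y hy)).comp y h6
          rw [mul_one] at h7
          exact h7.hasDerivWithinAt) (fun y hy => b4 _ (hxx y hy)) hm0 hxm
      rw [norm_eq_abs, norm_eq_abs, sub_zero, add_zero] at h5
      exact h5.trans (mul_le_mul_of_nonneg_left (abs_le.2 hxm) hB)
    have t2 : |q2 (τ + m) - q2 τ - q3 τ * m| ≤ B * |m| * |m| := by
      have h5 := hc.norm_image_sub_le_of_norm_hasDerivWithin_le (f := fun x => q2 (τ + x) - q3 τ * x) (f' := fun x => q3 (τ + x) - q3 τ) (C := B * |m|)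
        (fun y hy => by
          have h6 : HasDerivAt (fun x : ℝ => τ + x) 1 y := (hasDerivAt_id y).const_add τ
          have h7 := (h2 _ (hxx y hy)).comp y h6
          rw [mul_one] at h7
          have h8 : HasDerivAt (fun x : ℝ => q3 τ * x) (q3 τ) y := by simpa using (hasDerivAt_id y).const_mul (q3 τ)
          exact (h7.sub h8).hasDerivWithinAt) (fun y hy => t3 y hy) hm0 hmI
      rw [norm_eq_abs, norm_eq_abs, sub_zero, mul_zero, sub_zero, add_zero] at h5
      have h6 : q2 (τ + m) - q2 τ - q3 τ * m = q2 (τ + m) - q3 τ * m - q2 τ := by ring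
      rw [h6]
      exact h5
    have t2' : |(q2 (τ + m) - q2 τ - q3 τ * m) * v ^ 3| ≤ B * (2 * D * |t|) * (2 * D * |t|) * 8 := by
      rw [abs_mul, abs_of_pos (by positivity : 0 < v ^ 3)]
      have h5 : v ^ 3 ≤ 8 := by
        have := pow_le_pow_left₀ hv0.le hv2 3
        norm_num at this
        exact this
      have h6 : B * |m| * |m| ≤ B * (2 * D * |t|) * (2 * D * |t|) :=
        mul_le_mul (mul_le_mul_of_nonneg_left hm2 hB) hm2 (abs_nonneg _) (by positivity)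
      exact mul_le_mul (t2.trans h6) h5 (by positivity) (by positivity)
    have s2 : |q3 τ * m * (v ^ 3 - 1)| ≤ B * (2 * D * |t|) * (14 * (E * D * |t|)) := by
      rw [abs_mul, abs_mul]
      exact mul_le_mul (mul_le_mul b3 hm2 (abs_nonneg _) hB) e3 (abs_nonneg _) (by positivity)
    have s3 : |q2 τ * (v ^ 3 - 1 - 3 * (η * t))| ≤ B * (22 * (E * D * |t|) ^ 2) := by
      rw [abs_mul]
      exact mul_le_mul b2 e4 (abs_nonneg _) hB
    have s4 : |q3 τ * (D * t * (v - 1))| ≤ B * (D * |t| * (2 * (E * D * |t|))) := by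
      rw [abs_mul, abs_mul, abs_mul, abs_of_nonneg hD]
      exact mul_le_mul b3 (mul_le_mul_of_nonneg_left e1 (by positivity)) (by positivity) hB
    have key : q2 (τ + m) * v ^ 3 - q2 τ = (q2 (τ + m) - q2 τ - q3 τ * m) * v ^ 3 + q3 τ * m * (v ^ 3 - 1) + q2 τ * (v ^ 3 - 1 - 3 * (η * t)) +
        q3 τ * (D * t * (v - 1)) := by
      linear_combination t * hη + q3 τ * hmv
    have hsum : |q2 (τ + m) * v ^ 3 - q2 τ| ≤ 32 * B * (1 + E) ^ 2 * D ^ 2 * |t| ^ 2 := by
      rw [key]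
      refine (abs_add_le _ _).trans ((add_le_add ((abs_add_le _ _).trans (add_le_add ((abs_add_le _ _).trans (add_le_add t2' s2)) s3)) s4).trans ?_)
      have h5 : 0 ≤ B * D ^ 2 * |t| ^ 2 := by positivity
      have h6 : 0 ≤ B * D ^ 2 * |t| ^ 2 * E := by positivity
      have h7 : 0 ≤ B * D ^ 2 * |t| ^ 2 * E ^ 2 := by positivity
      nlinarith
    have e5 : D ^ 2 * q2 (τ + m) / (1 - η * t) ^ 3 - D ^ 2 * q2 τ = D ^ 2 * (q2 (τ + m) * v ^ 3 - q2 τ) := by
      rw [hv]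
      field_simp
    rw [e5, abs_mul, abs_of_nonneg (by positivity : 0 ≤ D ^ 2)]
    calc D ^ 2 * |q2 (τ + m) * v ^ 3 - q2 τ| ≤ D ^ 2 * (32 * B * (1 + E) ^ 2 * D ^ 2 * |t| ^ 2) := mul_le_mul_of_nonneg_left hsum (by positivity)
      _ = 32 * B * (1 + E) ^ 2 * D ^ 4 * t ^ 2 := by
        rw [sq_abs]
        ring

end Pool.Agent.Helper18.GC
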